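import Pool.Agent.Helper12.XG.St2

set_option autoImplicit false

namespace Pool.Agent.Helper84.XG

open Finset Polynomial Pool.Agent.Helper12.XG Pool.Agent.Helper14.GS

theorem hSIL (hA3 : Pool.Agent.Helper14.GS.StA3) (h1 : StSIG) (h2 : StORD) (h3 : StTOI)
    (h4 : StNUE) (h5 : StNIN) (h6 : StDWN) (h7 : StFIN) (h8 : StNU1) (h9 : StNU2) (h10 : StNU3)
    (h11 : StNU4) (h12 : StNU5) (h13 : StPAR) : Pool.Agent.Helper12.XG.StSIL := by
  intro r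
  obtain ⟨C, hC1, hA3⟩ := hA3
  obtain ⟨y₀, hy₀⟩ := h13 r C hC1
  refine ⟨y₀, fun y hy => ?_⟩
  obtain ⟨Λ, E, G, hP⟩ := hy₀ y hy
  have hy0 : (0 : ℝ) < y := lt_of_lt_of_le (Real.exp_pos _) hP.lo
  refine ⟨Λ, hP.hΛ, ?_, ?_⟩
  · rw [Real.log_le_iff_le_exp hy0]
    exact hP.up
  obtain ⟨hE1200, hE7, h4E, hN3, hQ'⟩ := h11 r C y Λ E G hP
  have hΛ : (1200 : ℝ) ≤ Λ := by exact_mod_cast hP.hΛ
  have hER : (1200 : ℝ) ≤ E := by exact_mod_cast hE1200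
  have hEΛ : (1 : ℝ) ≤ (E : ℝ) * Λ := by nlinarith
  have hEΛ0 : (0 : ℝ) < (E : ℝ) * Λ := by linarith
  refine ⟨Real.exp ((E : ℝ) * Λ), Real.one_le_exp hEΛ0.le, ?_⟩
  intro t ht ν
  by_contra hcon
  push Not at hcon
  have ht1 : 1 ≤ t := (Real.one_le_exp hEΛ0.le).trans ht
  have ht0 : 0 < t := by linarith
  have hlt : (E : ℝ) * Λ ≤ Real.log t := by
    rw [Real.le_log_iff_exp_le ht0]
    exact ht
  obtain ⟨q, hq⟩ : ∃ q : ℕ, q = ⌈8 * Real.log t / ((E : ℝ) * Λ)⌉₊ := ⟨_, rfl⟩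
  have hx8 : (8 : ℝ) ≤ 8 * Real.log t / ((E : ℝ) * Λ) := by
    rw [le_div_iff₀ hEΛ0]
    linarith
  have hqle : 8 * Real.log t / ((E : ℝ) * Λ) ≤ q := by
    rw [hq]; exact Nat.le_ceil _
  have hqlt : (q : ℝ) < 8 * Real.log t / ((E : ℝ) * Λ) + 1 := by
    rw [hq]; exact Nat.ceil_lt_add_one (by linarith)
  have hq8 : (8 : ℝ) ≤ q := hx8.trans hqle
  have hq8' : 8 ≤ q := by exact_mod_cast hq8
  have hup : Real.log t ≤ (E : ℝ) * Λ * q / 8 := by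
    rw [div_le_iff₀ hEΛ0] at hqle
    linarith
  have hlo : (E : ℝ) * Λ * ((q : ℝ) - 1) / 8 ≤ Real.log t := by
    have : (q : ℝ) - 1 < 8 * Real.log t / ((E : ℝ) * Λ) := by linarith
    rw [lt_div_iff₀ hEΛ0] at this
    linarith
  obtain ⟨β, hnz, hbZ, hmom⟩ := h1 E q (by omega) (by omega)
  have hbd : ∀ j b, |(β j b : ℝ)| ≤ BdR E q := by
    intro j b
    have := hbZ j b
    unfold BdR
    have h' : ((|β j b| : ℤ) : ℝ) ≤ (((2 * ((E : ℤ) ^ 2 + 1) ^ 3) ^ q : ℤ) : ℝ) := by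
      exact_mod_cast this
    rw [Int.cast_abs] at h'
    push_cast at h'
    exact h'
  have hBd0 : 0 ≤ BdR E q := by unfold BdR; positivity
  obtain ⟨d, hd1, hdC, hdiv⟩ := hA3 (4 * q)
  obtain ⟨κ, hκ⟩ : ∃ κ : ℝ, κ = 1 / (Λ : ℝ) ^ r := ⟨_, rfl⟩
  rw [← hκ] at hcon
  have htκ : 0 ≤ t ^ (-κ) := Real.rpow_nonneg ht0.le _
  obtain ⟨ν', hν'⟩ := h4 y t (t ^ (-κ)) ν htκ (fun p hp hpy => (hcon p hp hpy).le)
  obtain ⟨hW1, hsmall⟩ := h8 r C y Λ E G q d t hP (by omega) hd1 hdC ht1 hlo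
  have hnu2 := h9 r C y Λ E G q t hP (by omega) ht1 hup
  have hnu3 := fun N i => h10 r C y Λ E G q N i t hP (by omega) ht1 hup
  rw [← hκ] at hsmall hnu2
  have hWa0 : 0 ≤ WaR E q y := by unfold WaR; positivity
  have hEp0 : 0 ≤ EpR E q y t κ := by unfold EpR; positivity
  have hcE : ((E ^ 2 : ℕ) : ℝ) = (E : ℝ) ^ 2 := by push_cast; rfl
  -- linear forms
  have hforms : ∀ N i : ℕ, E ^ 7 ≤ N → N ≤ y - E ^ 2 - 2 → i ≤ q → ∃ J R : ℤ,
      |t * Phi (E ^ 2) q β i N - J - t / d * R| ≤ EpR E q y t κ ∧ |(R : ℝ)| ≤ WR E q y d := by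
    intro N i hN1 hN3' hi
    have hE7pos : 0 < E ^ 7 := by positivity
    obtain ⟨J, R, hJ, hR⟩ := h5 (E ^ 2) q i N d y β (BdR E q) t ((y : ℝ) * t ^ (-κ)) ν' hbd
      (by omega) hi hd1 hdiv (by omega) hν'
    refine ⟨J, R, hJ.trans ?_, hR.trans ?_⟩
    · unfold EpR WaR
      rw [hcE]
      have hle : (N : ℝ) + (E : ℝ) ^ 2 + 2 ≤ y := by
        have : N + E ^ 2 + 2 ≤ y := by omega
        exact_mod_cast this
      gcongr
    · unfold WR WaR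
      rw [hcE]
      have hle : (N : ℝ) + (E : ℝ) ^ 2 + 2 ≤ y := by
        have : N + E ^ 2 + 2 ≤ y := by omega
        exact_mod_cast this
      gcongr
  have hE7ge : 2 ≤ E ^ 7 := by
    calc 2 ≤ E := by omega
      _ = E ^ 1 := (pow_one E).symm
      _ ≤ E ^ 7 := Nat.pow_le_pow_right (by omega) (by omega)
  have hdown := h6 (E ^ 2) q (E * Λ) (E ^ 7) ⌈Real.exp ((Λ : ℝ) / 2)⌉₊ (y - E ^ 2 - 2) β
    (BdR E q) t (t / d) (EpR E q y t κ) (WR E q y d) (AmR (E * Λ) q) hbd hBd0 ht0.le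
    (Nat.mul_pos (by omega) (by have := hP.hΛ; omega)) hE7ge hE7 (by omega) hEp0 hW1 rfl hsmall
    (by
      rw [hcE]
      push_cast
      exact hnu2)
    hforms
    (by
      intro N i hN2 hN3' hi
      have hNr : Real.exp ((Λ : ℝ) / 2) ≤ N := (Nat.le_ceil _).trans (by exact_mod_cast hN2)
      have h3' := hnu3 N i hNr hi
      rw [← hκ] at h3'
      refine le_trans ?_ h3'
      rw [abs_mul, abs_of_pos ht0]
      refine mul_le_mul_of_nonneg_left ?_ ht0.le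
      have := h3 (E ^ 2) q (E * q) i N β (BdR E q) hbd hmom (h4E.trans hN2)
      rw [hcE] at this
      exact this)
  have hPhi : ∀ N i : ℕ, E ^ 7 ≤ N → N ≤ y - E ^ 2 - 2 → i ≤ q →
      |Phi (E ^ 2) q β i N| ≤ 1 / t := by
    intro N i hN1 hN3' hi
    have := hdown N i hN1 hN3' hi
    rw [abs_mul, abs_of_pos ht0] at this
    rw [le_div_iff₀ ht0]
    linarith
  classical
  have hex : ∃ k, mom (E ^ 2) q β k ≠ 0 := by
    obtain ⟨k, -, hk⟩ := h2 E G q (by omega) (by omega) hP.hG β hnz hbZ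
    exact ⟨k, hk⟩
  obtain ⟨M, hMdef⟩ : ∃ M, M = Nat.find hex := ⟨_, rfl⟩
  have hMne : mom (E ^ 2) q β M ≠ 0 := by rw [hMdef]; exact Nat.find_spec hex
  have hMmin : ∀ k < M, mom (E ^ 2) q β k = 0 := by
    intro k hk
    rw [hMdef] at hk
    have := Nat.find_min hex hk
    push Not at this
    exact this
  have hMlt : M < (E * G + 1) * q := by
    obtain ⟨k, hk, hk'⟩ := h2 E G q (by omega) (by omega) hP.hG β hnz hbZ
    refine lt_of_le_of_lt ?_ hk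
    rw [hMdef]
    exact Nat.find_min' hex hk'
  have hfin := h7 (E ^ 2) q (E * G + 20) (E ^ 7) M β (BdR E q) (1 / t) hbd (by omega) (by omega)
    (by omega) (by positivity) hMmin hMne
    (by
      intro k hk1 hk2 i hi
      exact hPhi _ _ (by omega) (by omega) hi)
  have hnum := h12 r C y Λ E G q M t hP (by omega) ht1 hlo hMlt
  rw [hcE] at hfin
  exact absurd hfin (not_le.2 hnum)

end Pool.Agent.Helper84.XG
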